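import Pool.Agent.Q15.B2Fin

/-!
# The flat ai-semirings `B_2` and `B_0` are finitely based

The definitions `Term`, `Term.eval`, `Holds`, `FinitelyBased`, `B2` and `B0` are in
`Pool/Agent/Q15/B2Defs.lean`; the finite bases `basis2` and `basis0` are in
`Pool/Agent/Q15/B2Sem.lean`, the proofs in `Pool/Agent/Q15/B2Main.lean` and
`Pool/Agent/Q15/B2Fin.lean`.
-/

set_option autoImplicit false

namespace Pool.Agent.Results.MP_c3354e_al.BrandtFinitelyBased

open Pool.Agent.Q15.B2

/-- The ai-semirings `B_2` and `B_0` are finitely based. -/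
theorem result : FinitelyBased B2 ∧ FinitelyBased B0 :=
  ⟨finitelyBased_B2, finitelyBased_B0⟩

end Pool.Agent.Results.MP_c3354e_al.BrandtFinitelyBased
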